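import Pool.Agent.P.MP_5402c6_co.Geo2

namespace Pool.Agent.Results.MP_5402c6_co.ExactEdges

open Pool.Agent.P.MP_5402c6_co

/-- The maximum number of edges of a semi-arc `k`-visibility graph on `n > 3k+3` vertices
(subtraction and division are those of the natural numbers). -/
theorem result (k n : ℕ) (hn : 3 * k + 3 < n) :
    IsGreatest {e : ℕ | ∃ G : SimpleGraph (Fin n), IsSemiArc k G ∧ G.edgeSet.ncard = e}
      (if n < 4 * k + 4 then
        3 * (k + 1) * n - 3 * (k + 1) * (3 * k + 4) / 2 - (3 * n - (11 * k + 13)) ^ 2 / 8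
      else 2 * (k + 1) * n - (k + 1) * (k + 2) / 2 - (5 * k + 7 - n) ^ 2 / 8) := by
  apply exact_value k n _ (by omega)
  obtain ⟨t, ht⟩ := Nat.even_mul_succ_self (k + 1)
  have h1 : k * k + 3 * k + 2 = t + t := by rw [← ht]; ring
  have h2 : (k + 1) * (3 * k + 4) ≤ (k + 1) * n := Nat.mul_le_mul_left _ (by omega)
  have h3 : (k + 1) * (3 * k + 4) = 3 * (k * k) + 7 * k + 4 := by ring
  have h4 : (k + 1) * n = k * n + n := by ring
  unfold dv
  by_cases h : n < 4 * k + 4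
  · rw [if_pos h, if_pos (by omega)]
    have e1 : 11 * (k + 1) + 2 = 11 * k + 13 := by ring
    have e2 : (3 * n - (11 * k + 13)) ^ 2 ≤ k ^ 2 := Nat.pow_le_pow_left (by omega) 2
    have e3 : 3 * (k + 1) * n = 3 * (k * n) + 3 * n := by ring
    have e4 : 3 * (k + 1) * (3 * k + 4) = 9 * (k * k) + 21 * k + 12 := by ring
    have e5 : (k + 1) * (4 * (k + 1) - n + 1) + (k + 1) * n = 4 * (k * k) + 9 * k + 5 := by
      rw [← Nat.mul_add, show 4 * (k + 1) - n + 1 + n = 4 * k + 5 by omega]; ring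
    have e6 : (((k + 1 : ℕ) : ℤ) * ((k + 1 : ℕ) + 1)) = ((t + t : ℕ) : ℤ) := by
      rw [← ht]; push_cast; ring
    have e7 : 4 * ((k + 1 : ℕ) : ℤ) * n = ((4 * (k * n) + 4 * n : ℕ) : ℤ) := by push_cast; ring
    rw [pow_two k] at e2
    rw [e1, e3, e4, e6, e7]
    omega
  · rw [if_neg h, if_neg (by omega)]
    have e1 : 5 * (k + 1) + 2 = 5 * k + 7 := by ring
    have e2 : (5 * k + 7 - n) ^ 2 ≤ (k + 3) ^ 2 := Nat.pow_le_pow_left (by omega) 2
    have e3 : 2 * (k + 1) * n = 2 * (k * n) + 2 * n := by ring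
    have e4 : (k + 1) * (k + 2) = t + t := ht
    have e5 : (k + 3) ^ 2 = k * k + 6 * k + 9 := by ring
    have e6 : (((k + 1 : ℕ) : ℤ) * ((k + 1 : ℕ) + 1)) = ((t + t : ℕ) : ℤ) := by
      rw [← ht]; push_cast; ring
    have e7 : 4 * ((k + 1 : ℕ) : ℤ) * n = ((4 * (k * n) + 4 * n : ℕ) : ℤ) := by push_cast; ring
    rw [e1, e3, e4, e6, e7]
    omega

end Pool.Agent.Results.MP_5402c6_co.ExactEdges
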